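import Pool.Agent.BEN.StmtsB
import Pool.Agent.Helper82_BE01.WVC
import Pool.Agent.Helper53_BEL.Fin
import Pool.Agent.Helper72_BE01.Alg
import Pool.Agent.Helper82_BE01.SPC
import Pool.Agent.Helper82_BE01.DIA
import Pool.Agent.Helper51_BE01.Eib
import Pool.Agent.Helper94_BE01.Dns

/-!
# Squad BEN, row WXC: the operators of a domain, with uniform bounds
-/

namespace Pool.Agent.BEN.H61

open Set Filter Topology MeasureTheory
open scoped InnerProductSpace ENNReal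
open Pool.Agent.BE01 Pool.Agent.BEL Pool.Agent.BEF Pool.Agent.BEH
open Pool.Agent.Helper82_BE01 (mu_finite exists_grad VV_eq_zero)

noncomputable section

theorem wxc (qef : QefStmt) (spq : SpqStmt) (rpq : RpqStmt) : WxcStmt := by
  intro d Ω hd hΩ
  obtain ⟨C1, hC1, hspq⟩ := spq d Ω hd hΩ
  obtain ⟨C2, hC2, hrpq⟩ := rpq d Ω hd hΩ
  refine ⟨C1 + C2, by positivity, ?_⟩
  intro Ω' hΩ' hsub
  have := mu_finite hΩ'
  have hd0 : 0 < d := by omega
  obtain ⟨ι, hι, hH10⟩ := Pool.Agent.BEL.H53.empA d Ω' hd0 hΩ'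
  obtain ⟨X, iX1, iX2, iX3, A, hA1, hA2, hA3, hA4, hA5⟩ := Pool.Agent.BE01.H72.alg (En d) (mu Ω')
  have : CompleteSpace (VV Ω') := by
    unfold VV
    exact Submodule.topologicalClosure.completeSpace _
  have hdense : DenseRange ι := by
    have h1 := Pool.Agent.BE01.H94.dns d Ω' hΩ'
    intro x
    have hx : x ∈ closure {f : Lp ℝ 2 (mu Ω') | ∃ ψ, Tst Ω' ψ ∧ f =ᵐ[mu Ω'] ψ} := by
      rw [h1]; trivial
    refine closure_mono ?_ hx
    rintro f ⟨ψ, hψ, hf⟩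
    obtain ⟨G, hG⟩ := exists_grad hψ
    refine ⟨G, ?_⟩
    apply Lp.ext
    exact (hι ψ hψ G hG).trans hf.symm
  let T : Lp ℝ 2 (mu Ω') →L[ℝ] VV Ω' := ContinuousLinearMap.adjoint ι
  have hT : ∀ (h : Lp ℝ 2 (mu Ω')) (G : VV Ω'), ⟪T h, G⟫_ℝ = ⟪h, ι G⟫_ℝ := fun h G =>
    ContinuousLinearMap.adjoint_inner_left ι G h
  let Z : Lp ℝ 2 (mu Ω') →L[ℝ] Lp (En d) 2 (mu Ω') := (VV Ω').subtypeL.comp T
  have hZ : ∀ h, Z h = (T h : Lp (En d) 2 (mu Ω')) := fun h => rfl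
  -- the weak equation
  have hinner : ∀ (h : Lp ℝ 2 (mu Ω')) (ψ : En d → ℝ), Tst Ω' ψ → ∀ G : VV Ω',
      (G : Lp (En d) 2 (mu Ω')) =ᵐ[mu Ω'] gradient ψ →
      ⟪h, ι G⟫_ℝ = ∫ x, h x * ψ x ∂(mu Ω') := by
    intro h ψ hψ G hG
    rw [L2.inner_def]
    apply integral_congr_ae
    filter_upwards [hι ψ hψ G hG] with x hx
    rw [hx]
    simp [mul_comm]
  have hinner2 : ∀ (F : Lp (En d) 2 (mu Ω')) (ψ : En d → ℝ), Tst Ω' ψ → ∀ G : VV Ω',
      (G : Lp (En d) 2 (mu Ω')) =ᵐ[mu Ω'] gradient ψ →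
      ⟪F, (G : Lp (En d) 2 (mu Ω'))⟫_ℝ = ∫ x, ⟪F x, gradient ψ x⟫_ℝ ∂(mu Ω') := by
    intro F ψ hψ G hG
    rw [L2.inner_def]
    apply integral_congr_ae
    filter_upwards [hG] with x hx
    rw [hx]
  have hweak : ∀ h ψ, Tst Ω' ψ → ∫ x, ⟪(T h : Lp (En d) 2 (mu Ω')) x, gradient ψ x⟫_ℝ ∂(mu Ω') =
      ∫ x, h x * ψ x ∂(mu Ω') := by
    intro h ψ hψ
    obtain ⟨G, hG⟩ := exists_grad hψ
    rw [← hinner2 _ ψ hψ G hG, ← hinner h ψ hψ G hG, ← hT]
    rfl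
  let S : Lp ℝ 2 (mu Ω') →L[ℝ] Lp ℝ 2 (mu Ω') := ι.comp T
  have hS : ∀ h, S h = ι (T h) := fun h => rfl
  have hcpt : IsCompactOperator S :=
    ((Pool.Agent.BEL.H31.rlc Pool.Agent.BEL.H53.avoA) d Ω' ι hd0 hΩ' hι).comp_clm T
  obtain ⟨R, C, Sn, U, hprp, hU⟩ :=
    (Pool.Agent.Helper82_BE01.spc Pool.Agent.BE01.H51.eib Pool.Agent.Helper82_BE01.dia) (VV Ω') (Lp ℝ 2 (mu Ω')) ι hdense hcpt
  -- the bounds of `S`
  have hSb : ∀ j, j + 2 ≤ d → ∀ f : Lp ℝ 2 (mu Ω'),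
      eLpNorm (S f) (qe d j) (mu Ω') ≤ ENNReal.ofReal C1 * eLpNorm f (qe d (j + 2)) (mu Ω') := by
    intro j hj f
    rw [hS]
    exact hspq Ω' hΩ' hsub ι hι f (T f) (hT f) j hj
  -- the lift of `S` to `L^infinity`
  set t : ℝ := ((mu Ω') univ ^ ((qe d 2).toReal)⁻¹).toReal with ht
  have ht0 : 0 ≤ t := ENNReal.toReal_nonneg
  have htfin : (mu Ω') univ ^ ((qe d 2).toReal)⁻¹ = ENNReal.ofReal t := by
    rw [ht, ENNReal.ofReal_toReal]
    exact ENNReal.rpow_ne_top_of_nonneg (inv_nonneg.2 ENNReal.toReal_nonneg) (measure_ne_top _ _)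
  have hq0 : qe d 0 = ∞ := (qef d (by omega)).1
  have hSe : ∀ x : X, ∀ᵐ z ∂(mu Ω'), |S (A.e x) z| ≤ C1 * t * ‖x‖ := by
    intro x
    have h1 := hSb 0 (by omega) (A.e x)
    rw [hq0] at h1
    have h2 : eLpNorm (A.e x) (qe d (0 + 2)) (mu Ω') ≤
        (mu Ω') univ ^ ((qe d 2).toReal)⁻¹ * ENNReal.ofReal ‖x‖ := by
      apply eLpNorm_le_of_ae_bound
      filter_upwards [hA1 x] with z hz
      rw [Real.norm_eq_abs]
      exact hz
    rw [htfin] at h2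
    have h3 : eLpNorm (S (A.e x)) ∞ (mu Ω') ≤ ENNReal.ofReal (C1 * t * ‖x‖) := by
      calc eLpNorm (S (A.e x)) ∞ (mu Ω')
          ≤ ENNReal.ofReal C1 * eLpNorm (A.e x) (qe d (0 + 2)) (mu Ω') := h1
        _ ≤ ENNReal.ofReal C1 * (ENNReal.ofReal t * ENNReal.ofReal ‖x‖) := by gcongr
        _ = ENNReal.ofReal (C1 * t * ‖x‖) := by
            rw [← ENNReal.ofReal_mul ht0, ← ENNReal.ofReal_mul hC1.le, mul_assoc]
    rw [eLpNorm_exponent_top] at h3
    filter_upwards [ae_le_eLpNormEssSup (f := (S (A.e x) : En d → ℝ)) (μ := mu Ω')] with z hz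
    have h4 := hz.trans h3
    rw [Real.enorm_eq_ofReal_abs] at h4
    exact (ENNReal.ofReal_le_ofReal_iff (by positivity)).1 h4
  have hlift : ∀ x : X, ∃ y, A.e y = S (A.e x) ∧ ‖y‖ ≤ C1 * t * ‖x‖ := fun x =>
    hA2 (S (A.e x)) (C1 * t * ‖x‖) (by positivity) (hSe x)
  choose sx hsx1 hsx2 using hlift
  have e_inj : Function.Injective A.e := A.j_inj.comp A.i_inj
  let SXl : X →ₗ[ℝ] X :=
    { toFun := sx
      map_add' := by
        intro x y
        apply e_inj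
        rw [hsx1, map_add, map_add, map_add, hsx1, hsx1]
      map_smul' := by
        intro r x
        apply e_inj
        rw [hsx1, map_smul, map_smul, map_smul, hsx1]
        rfl }
  let SX : X →L[ℝ] X := SXl.mkContinuous (C1 * t) hsx2
  let W : Wx X (Lp ℝ 2 (mu Ω')) :=
    { e := A.e, S := S, R := R, C := C, Sn := Sn, SX := SX
      e_inj := e_inj
      prp := hprp
      e_SX := fun h => hsx1 h }
  have hWS : ∀ h, W.S h = S h := fun h => rfl
  refine ⟨X, iX1, iX2, W, Z, ?_, ?_, ?_⟩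
  · exact ⟨hA1, hA2, hA3, hA4⟩
  · refine ⟨hcpt, ?_, ?_, hweak, ?_⟩
    · intro h
      rw [hWS]
      exact (hH10 _ _).2 ⟨(T h).2, rfl⟩
    · intro h
      rw [hWS, hZ]
      have h1 : ‖((T h : VV Ω') : Lp (En d) 2 (mu Ω'))‖ ^ 2 = ⟪T h, T h⟫_ℝ :=
        (real_inner_self_eq_norm_sq (T h)).symm
      rw [h1, hT]
      rfl
    · intro l u
      rw [hWS]
      constructor
      · rintro ⟨G, hG1, hG2⟩
        obtain ⟨hG, hu⟩ := (hH10 u G).1 hG1
        have hD : (⟨G, hG⟩ : VV Ω') - l • T u = 0 := by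
          apply VV_eq_zero
          intro ψ hψ G' hG'
          have h3 : ⟪l • T u, G'⟫_ℝ = l * ⟪T u, G'⟫_ℝ := by
            show ⟪l • (T u : Lp (En d) 2 (mu Ω')), (G' : Lp (En d) 2 (mu Ω'))⟫_ℝ =
              l * ⟪(T u : Lp (En d) 2 (mu Ω')), (G' : Lp (En d) 2 (mu Ω'))⟫_ℝ
            rw [real_inner_smul_left]
          rw [inner_sub_left, h3, hT, hinner u ψ hψ G' hG']
          have h1 : ⟪(⟨G, hG⟩ : VV Ω'), G'⟫_ℝ = ∫ x, ⟪G x, gradient ψ x⟫_ℝ ∂(mu Ω') :=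
            hinner2 G ψ hψ G' hG'
          rw [h1, hG2 ψ hψ, sub_self]
        rw [sub_eq_zero] at hD
        calc u = ι ⟨G, hG⟩ := hu
          _ = ι (l • T u) := by rw [hD]
          _ = l • S u := by rw [map_smul]; rfl
      · intro hu
        refine ⟨l • Z u, ?_, ?_⟩
        · refine (hH10 _ _).2 ⟨(VV Ω').smul_mem l (T u).2, ?_⟩
          calc u = ι (l • T u) := by
                rw [map_smul]
                exact hu
            _ = _ := rfl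
        · intro ψ hψ
          rw [← hweak u ψ hψ, ← integral_const_mul]
          apply integral_congr_ae
          filter_upwards [Lp.coeFn_smul l (Z u)] with x hx
          rw [hx, Pi.smul_apply, real_inner_smul_left]
          rfl
  · refine ⟨?_, ?_⟩
    · intro j hj f
      refine (hSb j hj f).trans ?_
      gcongr
      linarith
    · intro f
      have hUR : ∀ (h : Lp ℝ 2 (mu Ω')) (G : VV Ω'), ⟪U (R h), G⟫_ℝ = ⟪h, ι G⟫_ℝ := by
        intro h G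
        have h1 : ι (U (R h) - T h) = 0 := by
          rw [map_sub, ← hU, hprp.RR, sub_eq_zero]
          rfl
        have h2 := Pool.Agent.BEL.H33.clo d Ω' ι hΩ' hι _ h1
        rw [sub_eq_zero] at h2
        rw [h2, hT]
      refine (hrpq Ω' hΩ' hsub ι hι R U hU hprp.R_symm hprp.R_inj hUR f).trans ?_
      apply ENNReal.ofReal_le_ofReal
      have := norm_nonneg f
      nlinarith

end

end Pool.Agent.BEN.H61
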